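import Pool.Agent.W2helper77.SH.Main
import Pool.Agent.W387.Q.AreaLaw

/-!
# Convergence in distribution of the functionals along sparse sequences
-/

set_option autoImplicit false

namespace Pool.Agent.W2helper77.SH

open Finset Pool.Agent.H976R2 Pool.Agent.H976R2.Lip Pool.Agent.H924P Pool.Agent.H739K
open Filter Topology MeasureTheory

noncomputable section

/-- bounded by `M`, with radial Lipschitz constant `M` -/
def Rad (M : ℝ) (h : ℝ × ℝ → ℝ) : Prop :=
  (∀ x, |h x| ≤ M) ∧ ∀ (x : ℝ × ℝ) (l : ℝ), 1 ≤ l → |h (l * x.1, l * x.2) - h x| ≤ M * (l - 1)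

/-- the values of the functionals -/
abbrev Vec (j : ℕ) : Type := (Fin j → ℝ) × (Fin j → ℝ) × (Fin j → ℝ)

/-- the vector of the functionals -/
def V {j : ℕ} (h k : Fin j → ℝ × ℝ → ℝ) (u : Fin j → ℝ × ℝ) (a b : ℝ) (m : ℕ)
    (f : ZMod m → ℤ × ℤ) : Vec j :=
  (fun i => reg a b m f (h i), fun i => occ b m f (k i), fun i => hul b m f (u i))

theorem reg_scale (a b : ℝ) (m : ℕ) (f : ZMod m → ℤ × ℤ) (h : ℝ × ℝ → ℝ) (M : ℝ) :
    reg a b m f (fun x => h x / M) = reg a b m f h / M := by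
  unfold reg
  rw [div_right_comm]
  congr 1
  have e1 : ∀ c : ℤ × ℤ, (∑ᶠ _ : c ∈ {c : ℤ × ℤ | Encl m f c}, h (sc b c) / M) =
      M⁻¹ • ∑ᶠ _ : c ∈ {c : ℤ × ℤ | Encl m f c}, h (sc b c) := by
    intro c
    rw [smul_finsum]
    simp only [smul_eq_mul, inv_mul_eq_div]
  simp_rw [e1]
  rw [← smul_finsum, smul_eq_mul, inv_mul_eq_div]

theorem occ_scale (b : ℝ) (m : ℕ) (f : ZMod m → ℤ × ℤ) (h : ℝ × ℝ → ℝ) (M : ℝ) :
    occ b m f (fun x => h x / M) = occ b m f h / M := by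
  unfold occ
  rw [div_right_comm]
  congr 1
  have := smul_finsum (M⁻¹) (fun k : ZMod m => h (sc b (f k)))
  simp only [smul_eq_mul, inv_mul_eq_div] at this
  exact this.symm

theorem hul_scale (b : ℝ) (m : ℕ) (f : ZMod m → ℤ × ℤ) (u : ℝ × ℝ) {M : ℝ} (hM : 0 < M) :
    hul b m f (u.1 / M, u.2 / M) = hul b m f u / M := by
  unfold hul
  rw [div_right_comm]
  congr 1
  have := Real.mul_iSup_of_nonneg (inv_nonneg.2 hM.le)
    (fun k : ZMod m => (((f k).1 : ℝ) * u.1 + ((f k).2 : ℝ) * u.2))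
  rw [inv_mul_eq_div] at this
  rw [this]
  congr 1
  funext k
  field_simp

variable {j : ℕ}

/-- the law of the vector (for `N ≥ 2`) -/
def law (h k : Fin j → ℝ × ℝ → ℝ) (u : Fin j → ℝ × ℝ) (N : ℕ) : Measure (Vec j) :=
  if 2 ≤ N then (((KP (2 * N - 1)).card : ENNReal))⁻¹ •
    ∑ w ∈ KP (2 * N - 1), Measure.dirac (V h k u (MA N) (MW N) (2 * N) (lp (2 * N) w))
  else Measure.dirac 0

instance law_prob (h k : Fin j → ℝ × ℝ → ℝ) (u : Fin j → ℝ × ℝ) (N : ℕ) :
    IsProbabilityMeasure (law h k u N) := by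
  unfold law
  split_ifs with hN
  · constructor
    rw [Measure.smul_apply, Measure.finsetSum_apply]
    simp only [measure_univ, Finset.sum_const, nsmul_eq_mul, mul_one, smul_eq_mul]
    exact ENNReal.inv_mul_cancel
      (by exact_mod_cast Pool.Agent.W387.Q.AL.card_ne hN) (ENNReal.natCast_ne_top _)
  · infer_instance

/-- the expectation of a function of the vector -/
def EV (h k : Fin j → ℝ × ℝ → ℝ) (u : Fin j → ℝ × ℝ) (N : ℕ) (G : Vec j → ℝ) : ℝ :=
  me N (fun f => G (V h k u (MA N) (MW N) (2 * N) f))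

theorem integral_law (h k : Fin j → ℝ × ℝ → ℝ) (u : Fin j → ℝ × ℝ) {N : ℕ} (hN : 2 ≤ N)
    (G : Vec j → ℝ) : ∫ x, G x ∂(law h k u N) = EV h k u N G := by
  unfold law EV
  rw [if_pos hN, integral_smul_measure, integral_finsetSum_measure,
    F4x.me_eq CONV_proof hN]
  · simp only [integral_dirac, ENNReal.toReal_inv, ENNReal.toReal_natCast, smul_eq_mul]
    rw [inv_mul_eq_div]
  · intro w hw
    exact integrable_dirac (by simp)

/-- the law as a probability measure -/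
def plaw (h k : Fin j → ℝ × ℝ → ℝ) (u : Fin j → ℝ × ℝ) (N : ℕ) : ProbabilityMeasure (Vec j) :=
  ⟨law h k u N, law_prob h k u N⟩

/-- (1) -/
theorem merge [Pool.Agent.W387.Q.Ex] : ∃ C : ℝ, ∀ N : ℕ, 2 ≤ N → ∀ (j : ℕ)
    (h k : Fin j → ℝ × ℝ → ℝ) (u : Fin j → ℝ × ℝ) (G : Vec j → ℝ),
    (∀ i, Rad 1 (h i)) → (∀ i, Rad 1 (k i)) → (∀ i, |(u i).1| ≤ 1 ∧ |(u i).2| ≤ 1) →
    (∀ p q, |G p - G q| ≤ dist p q) → (∀ p, |G p| ≤ 1) →
    |EV h k u (N + 1) G - EV h k u N G| ≤ C * Pool.Agent.W387.Q.rN N := by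
  obtain ⟨C, hC⟩ := close
  refine ⟨C, fun N hN j h k u G hh hk hu hG hG1 => ?_⟩
  refine hC N hN j (fun x y z => G (x, y, z)) h k u ⟨?_, ?_, ?_, ?_, ?_, ?_, hu⟩
  · intro x x' y y' z z'
    refine (hG _ _).trans ?_
    rw [Prod.dist_eq, Prod.dist_eq]
    have := dist_nonneg (x := x) (y := x')
    have := dist_nonneg (x := y) (y := y')
    have := dist_nonneg (x := z) (y := z')
    simp only
    refine max_le (by linarith) (max_le (by linarith) (by linarith))
  · exact fun _ _ _ => hG1 _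
  · exact fun i => (hh i).1
  · exact fun i => (hk i).1
  · intro i x l hl
    have := (hh i).2 x l hl
    linarith
  · intro i x l hl
    have := (hk i).2 x l hl
    linarith

theorem Rad_scale {M : ℝ} (hM : 0 < M) {h : ℝ × ℝ → ℝ} (hh : Rad M h) :
    Rad 1 (fun x => h x / M) := by
  constructor
  · intro x
    rw [abs_div, abs_of_pos hM, div_le_one hM]
    exact hh.1 x
  · intro x l hl
    rw [← sub_div, abs_div, abs_of_pos hM, div_le_iff₀ hM]
    have := hh.2 x l hl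
    linarith

theorem Rad_mono {M M' : ℝ} (hM : M ≤ M') {h : ℝ × ℝ → ℝ} (hh : Rad M h) : Rad M' h := by
  constructor
  · exact fun x => (hh.1 x).trans hM
  · intro x l hl
    exact (hh.2 x l hl).trans (mul_le_mul_of_nonneg_right hM (by linarith))

/-- bounded Lipschitz functions: the increments are summable against the gaps -/
theorem incr [Pool.Agent.W387.Q.Ex] {M : ℝ} {h k : Fin j → ℝ × ℝ → ℝ} {u : Fin j → ℝ × ℝ}
    (hh : ∀ i, Rad M (h i)) (hk : ∀ i, Rad M (k i)) {G : Vec j → ℝ} {B : ℝ} {Λ : NNReal}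
    (hB : ∀ p, |G p| ≤ B) (hΛ : LipschitzWith Λ G) :
    ∃ C : ℝ, ∀ N : ℕ, 2 ≤ N →
      |EV h k u (N + 1) G - EV h k u N G| ≤ C * Pool.Agent.W387.Q.rN N := by
  obtain ⟨C, hC⟩ := merge
  -- a common bound
  obtain ⟨R, hR1, hRM, hRu⟩ : ∃ R : ℝ, 1 ≤ R ∧ M ≤ R ∧ ∀ i, |(u i).1| ≤ R ∧ |(u i).2| ≤ R := by
    refine ⟨1 + |M| + ∑ i, (|(u i).1| + |(u i).2|), ?_, ?_, ?_⟩
    · have : 0 ≤ ∑ i, (|(u i).1| + |(u i).2|) := Finset.sum_nonneg fun i _ => by positivity
      have := abs_nonneg M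
      linarith
    · have : 0 ≤ ∑ i, (|(u i).1| + |(u i).2|) := Finset.sum_nonneg fun i _ => by positivity
      have := le_abs_self M
      linarith
    · intro i
      have h1 : |(u i).1| + |(u i).2| ≤ ∑ i, (|(u i).1| + |(u i).2|) :=
        Finset.single_le_sum (f := fun i => |(u i).1| + |(u i).2|)
          (fun i _ => by positivity) (Finset.mem_univ i)
      have h2 := abs_nonneg M
      have h3 := abs_nonneg (u i).1
      have h4 := abs_nonneg (u i).2
      constructor <;> linarith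
  have hR0 : 0 < R := by linarith
  have hB0 : 0 ≤ B := (abs_nonneg _).trans (hB 0)
  set D : ℝ := 1 + B + Λ * R with hD
  have hΛ0 : (0 : ℝ) ≤ Λ := Λ.2
  have hD1 : 1 ≤ D := by rw [hD]; nlinarith [mul_nonneg hΛ0 hR0.le]
  have hD0 : 0 < D := by linarith
  set G' : Vec j → ℝ := fun p => G (R • p) / D with hG'
  set h' : Fin j → ℝ × ℝ → ℝ := fun i x => h i x / R with hh'
  set k' : Fin j → ℝ × ℝ → ℝ := fun i x => k i x / R with hk'
  set u' : Fin j → ℝ × ℝ := fun i => ((u i).1 / R, (u i).2 / R) with hu'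
  have hV : ∀ (a b : ℝ) (m : ℕ) (f : ZMod m → ℤ × ℤ), R • V h' k' u' a b m f = V h k u a b m f := by
    intro a b m f
    unfold V
    rw [Prod.smul_mk, Prod.smul_mk]
    refine Prod.ext ?_ (Prod.ext ?_ ?_)
    · funext i
      simp only [Pi.smul_apply, smul_eq_mul, hh']
      rw [reg_scale, mul_div_cancel₀ _ hR0.ne']
    · funext i
      simp only [Pi.smul_apply, smul_eq_mul, hk']
      rw [occ_scale, mul_div_cancel₀ _ hR0.ne']
    · funext i
      simp only [Pi.smul_apply, smul_eq_mul, hu']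
      rw [hul_scale _ _ _ _ hR0, mul_div_cancel₀ _ hR0.ne']
  have hEV : ∀ N : ℕ, 2 ≤ N → EV h k u N G = EV h' k' u' N G' * D := by
    intro N hN
    unfold EV
    rw [← F4x.me_mul CONV_proof hN]
    congr 1
    funext f
    rw [hG']
    simp only
    rw [div_mul_cancel₀ _ hD0.ne', hV]
  refine ⟨C * D, fun N hN => ?_⟩
  rw [hEV N hN, hEV (N + 1) (by omega), ← sub_mul, abs_mul, abs_of_pos hD0]
  have h1 := hC N hN j h' k' u' G' (fun i => Rad_scale hR0 (Rad_mono hRM (hh i)))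
    (fun i => Rad_scale hR0 (Rad_mono hRM (hk i)))
    (fun i => by
      constructor
      · simp only [hu']
        rw [abs_div, abs_of_pos hR0, div_le_one hR0]; exact (hRu i).1
      · simp only [hu']
        rw [abs_div, abs_of_pos hR0, div_le_one hR0]; exact (hRu i).2)
    (fun p q => by
      rw [hG']
      simp only
      rw [← sub_div, abs_div, abs_of_pos hD0, div_le_iff₀ hD0]
      have h2 := hΛ.dist_le_mul (R • p) (R • q)
      rw [Real.dist_eq, dist_smul₀, Real.norm_eq_abs, abs_of_pos hR0] at h2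
      have h3 : dist p q * (Λ * R) ≤ dist p q * D :=
        mul_le_mul_of_nonneg_left (by rw [hD]; linarith) dist_nonneg
      linarith)
    (fun p => by
      rw [hG']
      simp only
      rw [abs_div, abs_of_pos hD0, div_le_one hD0]
      have := hB (R • p)
      have := mul_nonneg hΛ0 hR0.le
      rw [hD]
      linarith)
  calc _ ≤ C * Pool.Agent.W387.Q.rN N * D := mul_le_mul_of_nonneg_right h1 hD0.le
    _ = _ := by ring

/-- (2) -/
theorem weak [Pool.Agent.W387.Q.Ex] (s : ℕ → ℕ) (hs : Tendsto s atTop atTop)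
    (hgap : Tendsto (fun k => ((s (k + 1) : ℝ) - s k) * Pool.Agent.W387.Q.rN (s k)) atTop (𝓝 0))
    {M : ℝ} {h k : Fin j → ℝ × ℝ → ℝ} {u : Fin j → ℝ × ℝ}
    (hh : ∀ i, Rad M (h i)) (hk : ∀ i, Rad M (k i))
    (ν : Measure (Vec j)) [IsProbabilityMeasure ν]
    (hc : ∀ G : Vec j → ℝ, Continuous G → (∃ C, ∀ x, |G x| ≤ C) →
      Tendsto (fun t => EV h k u (s t) G) atTop (𝓝 (∫ x, G x ∂ν)))
    (G : Vec j → ℝ) (hG : Continuous G) (hGb : ∃ C, ∀ x, |G x| ≤ C) :
    Tendsto (fun n => EV h k u n G) atTop (𝓝 (∫ x, G x ∂ν)) := by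
  obtain ⟨νp, hνp⟩ : ∃ νp : ProbabilityMeasure (Vec j), (νp : Measure (Vec j)) = ν :=
    ⟨⟨ν, inferInstance⟩, rfl⟩
  have hw : Tendsto (plaw h k u) atTop (𝓝 νp) := by
    rw [tendsto_iff_forall_lipschitz_integral_tendsto]
    rintro f ⟨C, hC⟩ ⟨Λ, hΛ⟩
    have hfb : ∀ p, |f p| ≤ |f 0| + |C| := fun p => by
      have h1 := hC p 0
      rw [Real.dist_eq] at h1
      have e : f p = f 0 + (f p - f 0) := by ring
      rw [e]
      refine (abs_add_le _ _).trans ?_
      have := le_abs_self C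
      linarith
    obtain ⟨K, hK⟩ := incr (u := u) hh hk hfb hΛ
    have h2 : Tendsto (fun n => EV h k u n f) atTop (𝓝 (∫ x, f x ∂ν)) := by
      refine Pool.Agent.W387.Q.add_gen _ |K| (abs_nonneg K) ?_ s hs hgap _
        (hc f hΛ.continuous ⟨_, hfb⟩)
      filter_upwards [eventually_ge_atTop 2] with n hn
      exact (hK n hn).trans
        (mul_le_mul_of_nonneg_right (le_abs_self K) (Pool.Agent.W387.Q.rN_nonneg n))
    rw [hνp]
    refine h2.congr' ?_
    filter_upwards [eventually_ge_atTop 2] with n hn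
    exact (integral_law h k u hn f).symm
  rw [ProbabilityMeasure.tendsto_iff_forall_integral_tendsto] at hw
  obtain ⟨C, hC⟩ := hGb
  have h4 := hw (BoundedContinuousFunction.ofNormedAddCommGroup G hG C (fun x => by
    rw [Real.norm_eq_abs]; exact hC x))
  rw [hνp] at h4
  refine h4.congr' ?_
  filter_upwards [eventually_ge_atTop 2] with n hn
  exact integral_law h k u hn G

end

end Pool.Agent.W2helper77.SH
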