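import Pool.Agent.W2helper77.SH.Stab

/-!
# The laws of the region, of the occupation measure and of the hull merge
-/

set_option autoImplicit false

namespace Pool.Agent.W2helper77.SH

open Finset Pool.Agent.H976R2 Pool.Agent.H976R2.Lip Pool.Agent.H924P Pool.Agent.H739K

noncomputable section

theorem card_pos {N : ℕ} (hN : 2 ≤ N) : (0 : ℝ) < ((KP (2 * N - 1)).card : ℝ) :=
  F4x.card_pos CONV_proof Pool.Agent.H739K.f2a hN

theorem MW_ge {N : ℕ} (hN : 2 ≤ N) : 1 / 2 ≤ MW N := by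
  have h1 := F3x.mean_eq CONV_proof SWAP_proof hN
  have hp := card_pos hN
  have h2 : ((KP (2 * N - 1)).card : ℝ) ≤ mm (fun w => (bx w : ℝ)) (2 * N - 1) := by
    unfold mm
    rw [← nsmul_one, ← Finset.sum_const]
    refine Finset.sum_le_sum fun w hw => ?_
    have := F4x.len_of_KP hw
    exact_mod_cast bx_ge w (by omega)
  have h3 : 1 ≤ mm (fun w => (bx w : ℝ)) (2 * N - 1) / ((KP (2 * N - 1)).card : ℝ) := by
    rw [le_div_iff₀ hp, one_mul]
    exact h2
  rw [h1] at h3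
  linarith

section

variable {j : ℕ} {g : (Fin j → ℝ) → (Fin j → ℝ) → (Fin j → ℝ) → ℝ} {h k : Fin j → ℝ × ℝ → ℝ}
  {u : Fin j → ℝ × ℝ}

theorem Fw_KP {N : ℕ} (hN : 2 ≤ N) {w : List Dir} (hw : w ∈ KP (2 * N - 1)) (a b : ℝ) :
    Fw g h k u a b w = Fn g h k u a b (2 * N) (lp (2 * N) w) := by
  have hl := F4x.len_of_KP hw
  have e : w.length + 1 = 2 * N := by omega
  unfold Fw
  rw [e]

theorem me_Fn {N : ℕ} (hN : 2 ≤ N) (a b : ℝ) :
    me N (fun f => Fn g h k u a b (2 * N) f) =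
      (∑ w ∈ KP (2 * N - 1), Fw g h k u a b w) / ((KP (2 * N - 1)).card : ℝ) := by
  rw [F4x.me_eq CONV_proof hN]
  congr 1
  refine Finset.sum_congr rfl fun w hw => ?_
  rw [Fw_KP hN hw]

theorem mean_ph {N : ℕ} (hN : 2 ≤ N) (a b : ℝ) :
    mm (ph g h k u a b) (2 * N - 1) / ((KP (2 * N - 1)).card : ℝ) =
      2 + me N (fun f => Fn g h k u a b (2 * N) f) + 2 * MW N / b := by
  have hp := card_pos hN
  rw [← F3x.mean_eq CONV_proof SWAP_proof hN, me_Fn hN]
  unfold mm ph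
  rw [Finset.sum_add_distrib, Finset.sum_add_distrib, Finset.sum_const, nsmul_eq_mul,
    ← Finset.sum_div]
  field_simp

theorem me_abs (ho : Ok g h k u) {N : ℕ} (hN : 2 ≤ N) (a b : ℝ) :
    |me N (fun f => Fn g h k u a b (2 * N) f)| ≤ 1 :=
  F4x.me_abs_le CONV_proof Pool.Agent.H739K.f2a hN _ 1 fun _ => ho.bd _ _ _

theorem change (ho : Ok g h k u) {N : ℕ} (hN : 2 ≤ N) {a b : ℝ} (ha : 0 < a) (hb : 0 < b) :
    |me N (fun f => Fn g h k u a b (2 * N) f) -
      me N (fun f => Fn g h k u (MA N) (MW N) (2 * N) f)| ≤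
      |MA N / a - 1| + 4 * |MW N / b - 1| + 2 * |b / MW N - 1| := by
  have hp := card_pos hN
  have haN := Pool.Agent.H739K.f2a N hN
  have hN' : (2 : ℝ) ≤ N := by exact_mod_cast hN
  have ha' : 0 < MA N := by linarith
  have hb' : 0 < MW N := by linarith [MW_ge hN]
  rw [me_Fn hN, me_Fn hN, ← sub_div, ← Finset.sum_sub_distrib, abs_div, abs_of_pos hp,
    div_le_iff₀ hp]
  refine (Finset.abs_sum_le_sum_abs _ _).trans ?_
  set A := |MA N / a - 1| with hA
  set B := |MW N / b - 1| with hB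
  set B' := |b / MW N - 1| with hB'
  have h1 : ∀ w ∈ KP (2 * N - 1), |Fw g h k u a b w - Fw g h k u (MA N) (MW N) w| ≤
      (ar w : ℝ) * ((A + (B + B')) / MA N) + (B + B') + (bx w : ℝ) * (B / MW N) := by
    intro w hw
    have hw1 := (mem_filter.1 hw).1
    have hw2 := (mem_filter.1 hw).2
    have hs := (mem_SW.1 hw1).2
    refine (Fw_norm ho hs hw2 ha ha' hb hb').trans (le_of_eq ?_)
    rw [← hA, ← hB, ← hB']
    ring
  refine (Finset.sum_le_sum h1).trans (le_of_eq ?_)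
  rw [Finset.sum_add_distrib, Finset.sum_add_distrib, ← Finset.sum_mul, ← Finset.sum_mul,
    Finset.sum_const, nsmul_eq_mul]
  have h2 : ∑ w ∈ KP (2 * N - 1), (ar w : ℝ) = MA N * ((KP (2 * N - 1)).card : ℝ) := by
    unfold MA
    rw [F4x.me_eq CONV_proof hN, div_mul_cancel₀ _ hp.ne']
    refine Finset.sum_congr rfl fun w hw => ?_
    rw [F4x.ar_eq hN hw]
  have h3 : ∑ w ∈ KP (2 * N - 1), (bx w : ℝ) = 2 * MW N * ((KP (2 * N - 1)).card : ℝ) := by
    rw [← F3x.mean_eq CONV_proof SWAP_proof hN, div_mul_cancel₀ _ hp.ne']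
    rfl
  rw [h2, h3]
  field_simp
  ring

end

open Pool.Agent.W387.Q in
/-- **the functionals of consecutive perimeters are close** -/
theorem close [X : Ex] : ∃ C : ℝ, ∀ N : ℕ, 2 ≤ N → ∀ (j : ℕ)
    (g : (Fin j → ℝ) → (Fin j → ℝ) → (Fin j → ℝ) → ℝ) (h k : Fin j → ℝ × ℝ → ℝ)
    (u : Fin j → ℝ × ℝ), Ok g h k u →
    |me (N + 1) (fun f => Fn g h k u (MA (N + 1)) (MW (N + 1)) (2 * (N + 1)) f) -
      me N (fun f => Fn g h k u (MA N) (MW N) (2 * N) f)| ≤ C * Pool.Agent.W387.Q.rN N := by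
  obtain ⟨C, hC⟩ := Pool.Agent.W387.Q.f0 62 (by norm_num)
  obtain ⟨C2, hC2⟩ := Pool.Agent.W387.Q.f2
  obtain ⟨C3, hC3⟩ := Pool.Agent.W387.Q.f3
  refine ⟨5 * |C| + |C2| + 10 * |C3|, ?_⟩
  intro N hN j g h k u ho
  have hr0 : 0 ≤ Pool.Agent.W387.Q.rN N := Pool.Agent.W387.Q.F0_rN_nonneg N
  set r := Pool.Agent.W387.Q.rN N with hr
  have hN' : (2 : ℝ) ≤ N := by exact_mod_cast hN
  have haN := Pool.Agent.H739K.f2a N hN
  have hbN := MW_ge hN
  have hbN1 := MW_ge (show 2 ≤ N + 1 by omega)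
  have ha0 : 0 < MA N := by linarith
  have hb0 : 0 < MW N := by linarith
  have hb1 : 0 < MW (N + 1) := by linarith
  have h1 := hC N (ph g h k u (MA N) (MW N)) hN
    (fun m h3 h4 _ => nice ho BOX_proof hN haN hbN m h3 h4)
  have e : 2 * (N + 1) - 1 = 2 * N + 1 := by omega
  have m1 := mean_ph (g := g) (h := h) (k := k) (u := u) hN (MA N) (MW N)
  have m2 := mean_ph (g := g) (h := h) (k := k) (u := u) (show 2 ≤ N + 1 by omega) (MA N) (MW N)
  rw [e] at m2
  rw [m1, m2] at h1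
  have hx := abs_le.1 (me_abs ho hN (MA N) (MW N))
  have hz := abs_le.1 (me_abs ho (show 2 ≤ N + 1 by omega) (MA (N + 1)) (MW (N + 1)))
  have hch := change ho (show 2 ≤ N + 1 by omega) ha0 hb0
  set x := me N (fun f => Fn g h k u (MA N) (MW N) (2 * N) f) with hxd
  set y := me (N + 1) (fun f => Fn g h k u (MA N) (MW N) (2 * (N + 1)) f) with hyd
  set z := me (N + 1) (fun f => Fn g h k u (MA (N + 1)) (MW (N + 1)) (2 * (N + 1)) f) with hzd
  have k2 : |MA (N + 1) / MA N - 1| ≤ |C2| * r :=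
    (hC2 N hN).trans (mul_le_mul_of_nonneg_right (le_abs_self _) hr0)
  have k3 : |MW (N + 1) / MW N - 1| ≤ |C3| * r :=
    (hC3 N hN).trans (mul_le_mul_of_nonneg_right (le_abs_self _) hr0)
  have k1 := h1.trans (mul_le_mul_of_nonneg_right (le_abs_self C) hr0)
  have hCr : 0 ≤ |C| * r := by positivity
  have hC2r : 0 ≤ |C2| * r := by positivity
  have hC3r : 0 ≤ |C3| * r := by positivity
  -- comparison at the old normalisation
  have hyx : |y - x| ≤ 5 * (|C| * r) + 2 * (|C3| * r) := by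
    have e1 : 2 + x + 2 * MW N / MW N = 4 + x := by
      rw [mul_div_assoc, div_self hb0.ne']; ring
    rw [e1] at k1
    have hpos : 0 < 4 + x := by linarith [hx.1]
    have e2 : (2 + y + 2 * MW (N + 1) / MW N) / (4 + x) - 1 =
        ((y - x) + 2 * (MW (N + 1) / MW N - 1)) / (4 + x) := by
      rw [div_sub_one hpos.ne']
      congr 1
      ring
    rw [e2, abs_div, abs_of_pos hpos, div_le_iff₀ hpos] at k1
    have e3 : y - x = ((y - x) + 2 * (MW (N + 1) / MW N - 1)) -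
        2 * (MW (N + 1) / MW N - 1) := by ring
    rw [e3]
    refine (abs_sub _ _).trans ?_
    have h5 : |C| * r * (4 + x) ≤ 5 * (|C| * r) := by nlinarith [hx.2]
    have h6 : |2 * (MW (N + 1) / MW N - 1)| = 2 * |MW (N + 1) / MW N - 1| := by
      rw [abs_mul, abs_of_pos (by norm_num : (0:ℝ) < 2)]
    rw [h6]
    linarith
  by_cases hcase : |C3| * r ≤ 1 / 2
  · have hq : 1 / 2 ≤ MW (N + 1) / MW N := by
      have := (abs_le.1 (k3.trans hcase)).1
      linarith
    have k4 : |MW N / MW (N + 1) - 1| ≤ 2 * (|C3| * r) := by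
      have e4 : MW N / MW (N + 1) - 1 = -(MW (N + 1) / MW N - 1) / (MW (N + 1) / MW N) := by
        field_simp
        ring
      rw [e4, abs_div, abs_neg, abs_of_pos (show 0 < MW (N + 1) / MW N by positivity),
        div_le_iff₀ (by positivity)]
      nlinarith
    have e5 : z - x = -(y - z) + (y - x) := by ring
    rw [e5]
    refine (abs_add_le _ _).trans ?_
    rw [abs_neg]
    nlinarith
  · push Not at hcase
    have : |z - x| ≤ 2 := by
      rw [abs_le]
      constructor <;> linarith [hx.1, hx.2, hz.1, hz.2]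
    nlinarith

end

end Pool.Agent.W2helper77.SH
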