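import Pool.Agent.W2helper77.SH.Word
import Pool.Agent.TH303.LTwo

/-!
# The functionals are nearly invariant under insertions; comparison of the perimeters
-/

set_option autoImplicit false

namespace Pool.Agent.W2helper77.SH

open Finset Pool.Agent.H976R2 Pool.Agent.H976R2.Lip Pool.Agent.H924P Pool.Agent.H739K

noncomputable section

open Classical in
theorem sum_uncov {w : List Dir} (hs : Saw w) :
    ∑ p ∈ adm w, (if Cov w (PP w p.1) p.2 ∧ Cov w (PP w (p.1 + 1)) p.2 then (0:ℝ) else 1) ≤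
      8 * ((bx w : ℝ) + 1) := by
  have h1 : ∀ p ∈ adm w, (if Cov w (PP w p.1) p.2 ∧ Cov w (PP w (p.1 + 1)) p.2 then (0:ℝ) else 1) ≤
      (if ¬ Cov w (PP w p.1) p.2 then 1 else 0) +
        (if ¬ Cov w (PP w (p.1 + 1)) p.2 then 1 else 0) := by
    intro p _
    by_cases c1 : Cov w (PP w p.1) p.2 <;> by_cases c2 : Cov w (PP w (p.1 + 1)) p.2 <;>
      simp [c1, c2]
  refine (Finset.sum_le_sum h1).trans ?_
  have hsub : adm w ⊆ range w.length ×ˢ (univ : Finset Dir) := by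
    unfold adm
    exact Finset.filter_subset _ _
  refine (Finset.sum_le_sum_of_subset_of_nonneg hsub (fun _ _ _ => by positivity)).trans ?_
  rw [Finset.sum_product_right]
  have h2 : ∀ e : Dir, ∑ i ∈ range w.length, ((if ¬ Cov w (PP w i) e then (1:ℝ) else 0) +
      (if ¬ Cov w (PP w (i + 1)) e then 1 else 0)) ≤ 2 * ((bx w : ℝ) + 1) := by
    intro e
    have h3 : ∑ j ∈ range (w.length + 1), (if ¬ Cov w (PP w j) e then (1:ℝ) else 0) ≤
        (bx w : ℝ) + 1 := by
      have := uncov_card hs e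
      rw [Finset.card_filter] at this
      exact_mod_cast this
    rw [Finset.sum_add_distrib]
    have h4 : ∑ i ∈ range w.length, (if ¬ Cov w (PP w i) e then (1:ℝ) else 0) ≤
        ∑ j ∈ range (w.length + 1), (if ¬ Cov w (PP w j) e then (1:ℝ) else 0) := by
      rw [Finset.sum_range_succ]
      have : (0:ℝ) ≤ if ¬ Cov w (PP w w.length) e then (1:ℝ) else 0 := by positivity
      linarith
    have h5 : ∑ i ∈ range w.length, (if ¬ Cov w (PP w (i + 1)) e then (1:ℝ) else 0) ≤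
        ∑ j ∈ range (w.length + 1), (if ¬ Cov w (PP w j) e then (1:ℝ) else 0) := by
      rw [Finset.sum_range_succ' (fun j => if ¬ Cov w (PP w j) e then (1:ℝ) else 0)]
      have : (0:ℝ) ≤ if ¬ Cov w (PP w 0) e then (1:ℝ) else 0 := by positivity
      linarith
    linarith
  refine (Finset.sum_le_sum fun e _ => h2 e).trans ?_
  rw [Finset.sum_const]
  have : (univ : Finset Dir).card = 4 := rfl
  rw [this, nsmul_eq_mul]
  push_cast
  linarith

/-- the functional -/
def Fn {j : ℕ} (g : (Fin j → ℝ) → (Fin j → ℝ) → (Fin j → ℝ) → ℝ) (h k : Fin j → ℝ × ℝ → ℝ)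
    (u : Fin j → ℝ × ℝ) (a b : ℝ) (m : ℕ) (f : ZMod m → ℤ × ℤ) : ℝ :=
  g (fun i => reg a b m f (h i)) (fun i => occ b m f (k i)) (fun i => hul b m f (u i))

/-- the class of the data -/
structure Ok {j : ℕ} (g : (Fin j → ℝ) → (Fin j → ℝ) → (Fin j → ℝ) → ℝ)
    (h k : Fin j → ℝ × ℝ → ℝ) (u : Fin j → ℝ × ℝ) : Prop where
  lip : ∀ x x' y y' z z', |g x y z - g x' y' z'| ≤ dist x x' + dist y y' + dist z z'
  bd : ∀ x y z, |g x y z| ≤ 1
  h1 : ∀ i x, |h i x| ≤ 1
  k1 : ∀ i x, |k i x| ≤ 1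
  hr : ∀ i (x : ℝ × ℝ) (l : ℝ), 1 ≤ l → |h i (l * x.1, l * x.2) - h i x| ≤ l - 1
  kr : ∀ i (x : ℝ × ℝ) (l : ℝ), 1 ≤ l → |k i (l * x.1, l * x.2) - k i x| ≤ l - 1
  u1 : ∀ i, |(u i).1| ≤ 1 ∧ |(u i).2| ≤ 1

section

variable {j : ℕ} {g : (Fin j → ℝ) → (Fin j → ℝ) → (Fin j → ℝ) → ℝ} {h k : Fin j → ℝ × ℝ → ℝ}
  {u : Fin j → ℝ × ℝ}

/-- the functional of a word -/
def Fw (g : (Fin j → ℝ) → (Fin j → ℝ) → (Fin j → ℝ) → ℝ) (h k : Fin j → ℝ × ℝ → ℝ)
    (u : Fin j → ℝ × ℝ) (a b : ℝ) (w : List Dir) : ℝ :=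
  Fn g h k u a b (w.length + 1) (lp (w.length + 1) w)

open Classical in
theorem Fw_ins (ho : Ok g h k u) {w : List Dir} (hs : Saw w) (hq : H976R2.sq w = 1) {i : ℕ}
    {e : Dir} (hp : (i, e) ∈ adm w) {a b : ℝ} (ha : 0 < a) (hb : 0 < b) :
    |Fw g h k u a b (ins w i e) - Fw g h k u a b w| ≤ 1 / a + 4 / ((w.length : ℝ) + 3) +
      (if Cov w (PP w i) e ∧ Cov w (PP w (i + 1)) e then 0 else 1) / b := by
  unfold Fw Fn
  refine (ho.lip _ _ _ _ _ _).trans ?_
  have hnn : (0 : ℝ) ≤ if Cov w (PP w i) e ∧ Cov w (PP w (i + 1)) e then 0 else 1 := by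
    split_ifs <;> norm_num
  refine add_le_add (add_le_add ?_ ?_) ?_
  · rw [dist_pi_le_iff (by positivity)]
    intro t
    rw [Real.dist_eq]
    exact reg_ins hs hq hp ha (ho.h1 t)
  · rw [dist_pi_le_iff (by positivity)]
    intro t
    rw [Real.dist_eq]
    exact occ_ins hs hp (ho.k1 t)
  · rw [dist_pi_le_iff (by positivity)]
    intro t
    rw [Real.dist_eq, hul_eq, hul_eq, ← sub_div, abs_div, abs_of_pos hb]
    exact div_le_div_of_nonneg_right (Hs_ins hs hp (ho.u1 t)) hb.le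

/-- the weight -/
def ph (g : (Fin j → ℝ) → (Fin j → ℝ) → (Fin j → ℝ) → ℝ) (h k : Fin j → ℝ × ℝ → ℝ)
    (u : Fin j → ℝ × ℝ) (a b : ℝ) (w : List Dir) : ℝ := 2 + Fw g h k u a b w + (bx w : ℝ) / b

theorem nice (ho : Ok g h k u) (hbox : S_box) {N : ℕ} (hN : 2 ≤ N) {a b : ℝ}
    (ha : (N : ℝ) / 2 ≤ a) (hb : 1 / 2 ≤ b) (m : ℕ) (hm : 3 ≤ m) (hmN : m ≤ 4 * N) :
    Nice 62 m (ph g h k u a b) where
  one_le := by
    intro w _ _ _ _
    have h1 := (abs_le.mp (ho.bd (fun i => reg a b (w.length + 1) (lp (w.length + 1) w) (h i))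
      (fun i => occ b (w.length + 1) (lp (w.length + 1) w) (k i))
      (fun i => hul b (w.length + 1) (lp (w.length + 1) w) (u i)))).1
    have h2 : 0 ≤ (bx w : ℝ) / b := div_nonneg (Nat.cast_nonneg _) (by linarith)
    unfold ph Fw Fn
    linarith
  le := by
    intro w _ hw _ _
    have h1 := (abs_le.mp (ho.bd (fun i => reg a b (w.length + 1) (lp (w.length + 1) w) (h i))
      (fun i => occ b (w.length + 1) (lp (w.length + 1) w) (k i))
      (fun i => hul b (w.length + 1) (lp (w.length + 1) w) (u i)))).2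
    have h3 : (bx w : ℝ) ≤ 4 * w.length := by exact_mod_cast F3x.bx_le w
    have h4 : (w.length : ℝ) ≤ m + 4 := by exact_mod_cast hw
    have h2 : (bx w : ℝ) / b ≤ 8 * (m + 4) := by
      rw [div_le_iff₀ (by linarith)]
      have : (0 : ℝ) ≤ m := Nat.cast_nonneg _
      nlinarith
    have h5 : (3 : ℝ) ≤ m := by exact_mod_cast hm
    have h6 : (8 : ℝ) ^ 2 * (m + 5) ≤ ((m : ℝ) + 5) ^ 3 := by
      have h7 : (8 : ℝ) ^ 2 ≤ ((m : ℝ) + 5) ^ 2 := pow_le_pow_left₀ (by norm_num) (by linarith) 2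
      calc (8 : ℝ) ^ 2 * (m + 5) ≤ ((m : ℝ) + 5) ^ 2 * (m + 5) :=
            mul_le_mul_of_nonneg_right h7 (by linarith)
        _ = _ := by ring
    unfold ph Fw Fn
    linarith
  lip := by
    classical
    intro w hw1 hw2 hs hq
    have hN' : (2 : ℝ) ≤ N := by exact_mod_cast hN
    have ha0 : 0 < a := by linarith
    have hb0 : 0 < b := by linarith
    obtain ⟨hb1, hb2⟩ := hbox w (by omega) hs hq
    have hB : (1 : ℝ) ≤ bx w := by exact_mod_cast bx_ge w (by omega)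
    have h1 : ∀ p ∈ adm w, |ph g h k u a b (ins w p.1 p.2) - ph g h k u a b w| ≤
        (1 / a + 4 / ((w.length : ℝ) + 3)) +
        ((if Cov w (PP w p.1) p.2 ∧ Cov w (PP w (p.1 + 1)) p.2 then 0 else 1) / b +
        ((bx (ins w p.1 p.2) : ℝ) - bx w) / b) := by
      rintro ⟨i, e⟩ hp
      have h2 := Fw_ins ho hs hq hp ha0 hb0
      have h3 : (bx w : ℝ) ≤ bx (ins w i e) := by exact_mod_cast hb1 (i, e) hp
      have h4 : ph g h k u a b (ins w i e) - ph g h k u a b w =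
          (Fw g h k u a b (ins w i e) - Fw g h k u a b w) +
            ((bx (ins w i e) : ℝ) - bx w) / b := by
        unfold ph; ring
      show |ph g h k u a b (ins w i e) - ph g h k u a b w| ≤ _
      rw [h4]
      refine (abs_add_le _ _).trans ?_
      rw [abs_of_nonneg (a := ((bx (ins w i e) : ℝ) - bx w) / b)
        (div_nonneg (by linarith) hb0.le)]
      linarith
    have h2 := Finset.sum_le_sum h1
    have e0 : ∀ (A : ℝ) (x y : ℕ × Dir → ℝ), ∑ p ∈ adm w, (A + (x p / b + y p / b)) =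
        (adm w).card * A + ((∑ p ∈ adm w, x p) / b + (∑ p ∈ adm w, y p) / b) := by
      intro A x y
      rw [Finset.sum_add_distrib, Finset.sum_add_distrib, Finset.sum_const, nsmul_eq_mul,
        ← Finset.sum_div, ← Finset.sum_div]
    rw [e0 _ (fun p => if Cov w (PP w p.1) p.2 ∧ Cov w (PP w (p.1 + 1)) p.2 then 0 else 1)
      (fun p => (bx (ins w p.1 p.2) : ℝ) - bx w)] at h2
    have h3 : ((adm w).card : ℝ) ≤ 4 * w.length := by exact_mod_cast F4x.card_adm w
    have hl : (w.length : ℝ) ≤ 4 * N + 2 := by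
      have : w.length ≤ 4 * N + 2 := by omega
      exact_mod_cast this
    have hl0 : (0 : ℝ) ≤ w.length := Nat.cast_nonneg _
    have h4 : ((adm w).card : ℝ) * (1 / a + 4 / ((w.length : ℝ) + 3)) ≤ 56 := by
      have h5 : (0 : ℝ) ≤ 1 / a + 4 / ((w.length : ℝ) + 3) := by positivity
      have h6 : 4 * (w.length : ℝ) * (1 / a) ≤ 40 := by
        rw [mul_one_div, div_le_iff₀ ha0]
        nlinarith
      have h7 : 4 * (w.length : ℝ) * (4 / ((w.length : ℝ) + 3)) ≤ 16 := by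
        rw [mul_div_assoc', div_le_iff₀ (by linarith)]
        linarith
      have h8 := mul_le_mul_of_nonneg_right h3 h5
      rw [mul_add] at h8
      linarith
    have h5 := div_le_div_of_nonneg_right (sum_uncov hs) hb0.le
    have h6 := div_le_div_of_nonneg_right hb2 hb0.le
    have h7 : 1 + (bx w : ℝ) / b ≤ ph g h k u a b w := by
      have h1 := (abs_le.mp (ho.bd (fun i => reg a b (w.length + 1) (lp (w.length + 1) w) (h i))
        (fun i => occ b (w.length + 1) (lp (w.length + 1) w) (k i))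
        (fun i => hul b (w.length + 1) (lp (w.length + 1) w) (u i)))).1
      unfold ph Fw Fn
      linarith
    have h8 : 8 * ((bx w : ℝ) + 1) / b ≤ 16 * ((bx w : ℝ) / b) := by
      rw [mul_div_assoc', div_le_div_iff_of_pos_right hb0]
      linarith
    have h9 : 6 * (bx w : ℝ) / b = 6 * ((bx w : ℝ) / b) := by ring
    have h10 : 0 ≤ (bx w : ℝ) / b := by positivity
    linarith

/-! ### Change of the normalisation -/

theorem test_le {H : ℝ × ℝ → ℝ} (hr : ∀ (x : ℝ × ℝ) (l : ℝ), 1 ≤ l →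
    |H (l * x.1, l * x.2) - H x| ≤ l - 1) {b b' : ℝ} (hb : 0 < b) (hb' : 0 < b') (p : ℤ × ℤ) :
    |H (sc b p) - H (sc b' p)| ≤ |b' / b - 1| + |b / b' - 1| := by
  have key : ∀ s t : ℝ, 0 < s → s ≤ t → |H (sc s p) - H (sc t p)| ≤ t / s - 1 := by
    intro s t hs hst
    have ht : 0 < t := lt_of_lt_of_le hs hst
    have h1 := hr (sc t p) (t / s) (by rw [le_div_iff₀ hs]; linarith)
    have e1 : (t / s * (sc t p).1, t / s * (sc t p).2) = sc s p := by
      unfold sc
      simp only [Prod.mk.injEq]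
      constructor <;> field_simp
    rw [e1] at h1
    exact h1
  rcases le_total b b' with h | h
  · refine (key b b' hb h).trans ?_
    have := le_abs_self (b' / b - 1)
    have := abs_nonneg (b / b' - 1)
    linarith
  · rw [abs_sub_comm]
    refine (key b' b hb' h).trans ?_
    have := le_abs_self (b / b' - 1)
    have := abs_nonneg (b' / b - 1)
    linarith

theorem reg_norm {w : List Dir} (hs : Saw w) (hq : H976R2.sq w = 1) {H : ℝ × ℝ → ℝ}
    (h1 : ∀ x, |H x| ≤ 1) (hr : ∀ (x : ℝ × ℝ) (l : ℝ), 1 ≤ l →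
    |H (l * x.1, l * x.2) - H x| ≤ l - 1) {a a' b b' : ℝ} (ha : 0 < a) (ha' : 0 < a')
    (hb : 0 < b) (hb' : 0 < b') :
    |reg a b (w.length + 1) (lp (w.length + 1) w) H -
      reg a' b' (w.length + 1) (lp (w.length + 1) w) H| ≤
      (ar w : ℝ) / a' * (|a' / a - 1| + (|b' / b - 1| + |b / b' - 1|)) := by
  have hfin := fin_cells hs hq
  unfold reg
  rw [finsum_mem_eq_finite_toFinset_sum _ hfin, finsum_mem_eq_finite_toFinset_sum _ hfin]
  set S := hfin.toFinset with hS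
  have hA : (ar w : ℝ) = S.card := by
    have : ar w = {c : ℤ × ℤ | Encl (w.length + 1) (lp (w.length + 1) w) c}.ncard := rfl
    rw [this, Set.ncard_eq_toFinset_card _ hfin]
  set X := ∑ c ∈ S, H (sc b c) with hX
  set Y := ∑ c ∈ S, H (sc b' c) with hY
  have hX1 : |X| ≤ ar w := by
    rw [hA]
    refine (Finset.abs_sum_le_sum_abs _ _).trans ?_
    refine (Finset.sum_le_sum fun c _ => h1 _).trans ?_
    simp
  have hXY : |X - Y| ≤ ar w * (|b' / b - 1| + |b / b' - 1|) := by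
    rw [hA, hX, hY, ← Finset.sum_sub_distrib]
    refine (Finset.abs_sum_le_sum_abs _ _).trans ?_
    refine (Finset.sum_le_sum fun c _ => test_le hr hb hb' c).trans ?_
    rw [Finset.sum_const, nsmul_eq_mul]
  have e1 : X / a - Y / a' = X * (a' / a - 1) / a' + (X - Y) / a' := by
    field_simp
    ring
  rw [e1]
  refine (abs_add_le _ _).trans ?_
  rw [abs_div, abs_div, abs_mul, abs_of_pos ha', div_mul_eq_mul_div, ← add_div,
    div_le_div_iff_of_pos_right ha', mul_add]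
  have := mul_le_mul_of_nonneg_right hX1 (abs_nonneg (a' / a - 1))
  linarith

theorem occ_norm (w : List Dir) {H : ℝ × ℝ → ℝ} (hr : ∀ (x : ℝ × ℝ) (l : ℝ), 1 ≤ l →
    |H (l * x.1, l * x.2) - H x| ≤ l - 1) {b b' : ℝ} (hb : 0 < b) (hb' : 0 < b') :
    |occ b (w.length + 1) (lp (w.length + 1) w) H -
      occ b' (w.length + 1) (lp (w.length + 1) w) H| ≤ |b' / b - 1| + |b / b' - 1| := by
  unfold occ
  rw [finsum_eq_sum_of_fintype, finsum_eq_sum_of_fintype, ← sub_div, ← Finset.sum_sub_distrib,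
    abs_div]
  have hn : (0 : ℝ) < ((w.length + 1 : ℕ) : ℝ) := by positivity
  rw [abs_of_pos hn, div_le_iff₀ hn]
  refine (Finset.abs_sum_le_sum_abs _ _).trans ?_
  refine (Finset.sum_le_sum fun c _ => test_le hr hb hb' _).trans ?_
  rw [Finset.sum_const, nsmul_eq_mul, Finset.card_univ, ZMod.card, mul_comm]

theorem Hs_abs (w : List Dir) {u : ℝ × ℝ} (hu : |u.1| ≤ 1 ∧ |u.2| ≤ 1) : |Hs w u| ≤ bx w := by
  obtain ⟨Mx, mx, My, my, hb, h1, h2, h3, h4⟩ := BOXx.exists_box w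
  have hbx := BOXx.bx_of w Mx mx My my hb h1 h2 h3 h4
  have hv0 := hb _ (BOXx.vis_PP w 0)
  have hP0 : PP w 0 = 0 := by unfold PP; simp
  rw [hP0] at hv0
  have h0 : 0 ≤ Hs w u := by
    have := li_le_Hs w u (BOXx.vis_PP w 0)
    rw [hP0] at this
    unfold li at this
    simpa using this
  rw [abs_of_nonneg h0]
  obtain ⟨p, hp1, hp2⟩ := exists_Hs w u
  rw [← hp2]
  have hp := hb p hp1
  simp only [Prod.fst_zero, Prod.snd_zero] at hv0
  have g1 : |(p.1 : ℝ)| ≤ Mx - mx := by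
    rw [abs_le]
    have a1 : -(Mx - mx) ≤ p.1 := by omega
    have a2 : p.1 ≤ Mx - mx := by omega
    constructor
    · exact_mod_cast a1
    · exact_mod_cast a2
  have g2 : |(p.2 : ℝ)| ≤ My - my := by
    rw [abs_le]
    have a1 : -(My - my) ≤ p.2 := by omega
    have a2 : p.2 ≤ My - my := by omega
    constructor
    · exact_mod_cast a1
    · exact_mod_cast a2
  have e1 : (bx w : ℝ) = (Mx - mx) + (My - my) := by exact_mod_cast hbx
  rw [e1]
  unfold li
  have k1 : (p.1 : ℝ) * u.1 ≤ |(p.1 : ℝ)| := by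
    refine (le_abs_self _).trans ?_
    rw [abs_mul]
    exact mul_le_of_le_one_right (abs_nonneg _) hu.1
  have k2 : (p.2 : ℝ) * u.2 ≤ |(p.2 : ℝ)| := by
    refine (le_abs_self _).trans ?_
    rw [abs_mul]
    exact mul_le_of_le_one_right (abs_nonneg _) hu.2
  linarith

theorem hul_norm (w : List Dir) {u : ℝ × ℝ} (hu : |u.1| ≤ 1 ∧ |u.2| ≤ 1) {b b' : ℝ}
    (hb : 0 < b) (hb' : 0 < b') :
    |hul b (w.length + 1) (lp (w.length + 1) w) u -
      hul b' (w.length + 1) (lp (w.length + 1) w) u| ≤ (bx w : ℝ) / b' * |b' / b - 1| := by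
  rw [hul_eq, hul_eq]
  have e1 : Hs w u / b - Hs w u / b' = Hs w u / b' * (b' / b - 1) := by
    field_simp
  rw [e1, abs_mul, abs_div, abs_of_pos hb']
  exact mul_le_mul_of_nonneg_right (div_le_div_of_nonneg_right (Hs_abs w hu) hb'.le)
    (abs_nonneg _)

theorem Fw_norm (ho : Ok g h k u) {w : List Dir} (hs : Saw w) (hq : H976R2.sq w = 1)
    {a a' b b' : ℝ} (ha : 0 < a) (ha' : 0 < a') (hb : 0 < b) (hb' : 0 < b') :
    |Fw g h k u a b w - Fw g h k u a' b' w| ≤
      (ar w : ℝ) / a' * (|a' / a - 1| + (|b' / b - 1| + |b / b' - 1|)) +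
        (|b' / b - 1| + |b / b' - 1|) + (bx w : ℝ) / b' * |b' / b - 1| := by
  unfold Fw Fn
  refine (ho.lip _ _ _ _ _ _).trans ?_
  refine add_le_add (add_le_add ?_ ?_) ?_
  · rw [dist_pi_le_iff (by positivity)]
    intro t
    rw [Real.dist_eq]
    exact reg_norm hs hq (ho.h1 t) (ho.hr t) ha ha' hb hb'
  · rw [dist_pi_le_iff (by positivity)]
    intro t
    rw [Real.dist_eq]
    exact occ_norm w (ho.kr t) hb hb'
  · rw [dist_pi_le_iff (by positivity)]
    intro t
    rw [Real.dist_eq]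
    exact hul_norm w (ho.u1 t) hb hb'

end

end

end Pool.Agent.W2helper77.SH
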