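import Pool.Agent.W387.Q.Poly

/-!
# Region, occupation measure and hull of a self-avoiding polygon, and the effect of an insertion
-/

set_option autoImplicit false

namespace Pool.Agent.W2helper77.SH

open Finset Pool.Agent.H976R2 Pool.Agent.H976R2.Lip Pool.Agent.H924P Pool.Agent.H739K

noncomputable section

/-- a lattice point divided by `b` -/
def sc (b : ℝ) (p : ℤ × ℤ) : ℝ × ℝ := ((p.1 : ℝ) / b, (p.2 : ℝ) / b)

/-- the sum of `h` over the cells of the region, divided by `a` -/
def reg (a b : ℝ) (m : ℕ) (f : ZMod m → ℤ × ℤ) (h : ℝ × ℝ → ℝ) : ℝ :=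
  (∑ᶠ c ∈ {c : ℤ × ℤ | Encl m f c}, h (sc b c)) / a

/-- the mean of `h` over the vertices -/
def occ (b : ℝ) (m : ℕ) (f : ZMod m → ℤ × ℤ) (h : ℝ × ℝ → ℝ) : ℝ :=
  (∑ᶠ k : ZMod m, h (sc b (f k))) / m

/-- the support function of the convex hull, divided by `b` -/
def hul (b : ℝ) (m : ℕ) (f : ZMod m → ℤ × ℤ) (u : ℝ × ℝ) : ℝ :=
  (⨆ k : ZMod m, ((f k).1 * u.1 + (f k).2 * u.2)) / b

/-! ### Cells -/

theorem loop_of {w : List Dir} (hs : Saw w) (hq : sq w = 1) :
    IsLoop (w.length + 1) (lp (w.length + 1) w) := by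
  have hw : w ∈ KP w.length := by
    unfold KP
    rw [mem_filter]
    exact ⟨mem_SW.2 ⟨rfl, hs⟩, hq⟩
  have h : pth w.length w ∈ {f | IsLoop (w.length + 1) f} := by
    rw [← CONV.image_eq]
    exact ⟨w, hw, rfl⟩
  exact h

theorem fin_cells {w : List Dir} (hs : Saw w) (hq : sq w = 1) :
    {c : ℤ × ℤ | Encl (w.length + 1) (lp (w.length + 1) w) c}.Finite := by
  have h := HORaux.finite_encl (loop_of hs hq).2.2
  exact Set.finite_coe_iff.1 h

/-- the sum over the cells changes by one term -/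
theorem reg_ins {w : List Dir} (hs : Saw w) (hq : sq w = 1) {i : ℕ} {e : Dir}
    (hp : (i, e) ∈ adm w) {a b : ℝ} (ha : 0 < a) {h : ℝ × ℝ → ℝ} (hh : ∀ x, |h x| ≤ 1) :
    |reg a b ((ins w i e).length + 1) (lp ((ins w i e).length + 1) (ins w i e)) h -
      reg a b (w.length + 1) (lp (w.length + 1) w) h| ≤ 1 / a := by
  classical
  obtain ⟨hi, hpe, -, -⟩ := (mem_adm hs i e).1 hp
  have hsi : Saw (ins w i e) := by
    unfold adm at hp
    exact (Finset.mem_filter.1 hp).2.2
  have hqi : sq (ins w i e) = 1 := by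
    rw [← hq]
    have hsp := split_at w i hi
    unfold H976R2.sq ins
    conv_rhs => rw [hsp]
    simp only [wX_append, wY_append, wX_cons, wY_cons, dx_opp, dy_opp]
    push_cast
    ring
  have hfA := fin_cells hsi hqi
  have hfB := fin_cells hs hq
  have hsame := AREAx.encl_same w i e hi hpe
  set c0 : ℤ × ℤ := (min (PP w i).1 ((PP w i).1 + dx e + dx (lt w i)),
      min (PP w i).2 ((PP w i).2 + dy e + dy (lt w i))) with hc0
  set A : Set (ℤ × ℤ) := {c | Encl ((ins w i e).length + 1)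
    (lp ((ins w i e).length + 1) (ins w i e)) c} with hA
  set B : Set (ℤ × ℤ) := {c | Encl (w.length + 1) (lp (w.length + 1) w) c} with hB
  have key : ∀ S : Set (ℤ × ℤ), S.Finite → ∑ᶠ c ∈ S, h (sc b c) =
      (∑ᶠ c ∈ S \ {c0}, h (sc b c)) + (if c0 ∈ S then h (sc b c0) else 0) := by
    intro S hS
    by_cases hc : c0 ∈ S
    · rw [if_pos hc]
      have e1 : S = insert c0 (S \ {c0}) := by
        ext x
        rw [Set.mem_insert_iff, Set.mem_sdiff, Set.mem_singleton_iff]
        constructor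
        · intro hx
          by_cases hxc : x = c0
          · exact Or.inl hxc
          · exact Or.inr ⟨hx, hxc⟩
        · rintro (hx | hx)
          · rw [hx]; exact hc
          · exact hx.1
      conv_lhs => rw [e1]
      rw [finsum_mem_insert _ (by simp) (hS.subset Set.sdiff_subset), add_comm]
    · rw [if_neg hc, add_zero]
      congr 1
      funext c
      have : (c ∈ S) = (c ∈ S \ {c0}) := by
        rw [Set.mem_sdiff, Set.mem_singleton_iff, eq_iff_iff]
        constructor
        · intro hx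
          exact ⟨hx, fun hxc => hc (hxc ▸ hx)⟩
        · exact fun hx => hx.1
      rw [this]
  have hAB : A \ {c0} = B \ {c0} := by
    ext c
    rw [Set.mem_sdiff, Set.mem_sdiff, Set.mem_singleton_iff]
    constructor
    · rintro ⟨h1, h2⟩
      exact ⟨(hsame c h2).1 h1, h2⟩
    · rintro ⟨h1, h2⟩
      exact ⟨(hsame c h2).2 h1, h2⟩
  unfold reg
  rw [← hA, ← hB, key A hfA, key B hfB, hAB, ← sub_div, abs_div, abs_of_pos ha]
  apply div_le_div_of_nonneg_right _ ha.le
  have h1 := hh (sc b c0)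
  have h2 := abs_le.1 h1
  rw [add_sub_add_left_eq_sub]
  split_ifs
  · rw [sub_self, abs_zero]; norm_num
  · rw [sub_zero]; exact h1
  · rw [zero_sub, abs_neg]; exact h1
  · rw [sub_zero, abs_zero]; norm_num

/-! ### Vertices -/

/-- sum over the vertices, without the last one -/
def vw (H : ℤ × ℤ → ℝ) : ℤ × ℤ → List Dir → ℝ
  | _, [] => 0
  | p, (d :: w) => H p + vw H (p + dv d) w

theorem vw_append (H : ℤ × ℤ → ℝ) (a b : List Dir) : ∀ p, vw H p (a ++ b) =
    vw H p a + vw H (p + AREAx.disp a) b := by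
  induction a with
  | nil => intro p; simp [vw, AREAx.disp_nil]
  | cons d a ih =>
    intro p
    simp only [List.cons_append, vw]
    rw [ih, AREAx.disp_cons, ← add_assoc, ← add_assoc]

theorem vw_sum (H : ℤ × ℤ → ℝ) (w : List Dir) : ∀ p, vw H p w =
    ∑ j ∈ range w.length, H (p + PP w j) := by
  induction w with
  | nil => intro p; simp [vw]
  | cons d w ih =>
    intro p
    rw [List.length_cons, Finset.sum_range_succ']
    simp only [vw]
    rw [ih, add_comm]
    congr 1
    · apply Finset.sum_congr rfl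
      intro j _
      have h1 : PP (d :: w) (j + 1) = dv d + PP w j := by
        unfold PP dv
        simp
      rw [h1, add_assoc]
    · have h0 : PP (d :: w) 0 = 0 := by unfold PP; simp
      rw [h0, add_zero]

theorem occ_eq (b : ℝ) (w : List Dir) (h : ℝ × ℝ → ℝ) :
    occ b (w.length + 1) (lp (w.length + 1) w) h =
      (vw (fun p => h (sc b p)) 0 w + h (sc b (AREAx.disp w))) / ((w.length + 1 : ℕ) : ℝ) := by
  unfold occ
  congr 1
  rw [finsum_eq_sum_of_fintype]
  have e2 : ∑ k : ZMod (w.length + 1), h (sc b (lp (w.length + 1) w k)) =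
      ∑ k : Fin (w.length + 1), h (sc b (AREAx.lf w k)) := rfl
  rw [e2, Fin.sum_univ_castSucc, vw_sum, Finset.sum_range]
  congr 1
  · apply Finset.sum_congr rfl
    intro j _
    rw [zero_add]
    rfl
  · have h1 : AREAx.lf w (Fin.last w.length) = AREAx.disp w := by
      unfold AREAx.lf PP AREAx.disp
      simp
    rw [h1]

theorem vw_abs {H : ℤ × ℤ → ℝ} (hH : ∀ p, |H p| ≤ 1) (w : List Dir) (p : ℤ × ℤ) :
    |vw H p w| ≤ w.length := by
  rw [vw_sum]
  refine (Finset.abs_sum_le_sum_abs _ _).trans ?_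
  refine (Finset.sum_le_sum fun j _ => hH _).trans ?_
  simp

theorem occ_ins {w : List Dir} (hs : Saw w) {i : ℕ} {e : Dir}
    (hp : (i, e) ∈ adm w) {b : ℝ} {h : ℝ × ℝ → ℝ} (hh : ∀ x, |h x| ≤ 1) :
    |occ b ((ins w i e).length + 1) (lp ((ins w i e).length + 1) (ins w i e)) h -
      occ b (w.length + 1) (lp (w.length + 1) w) h| ≤ 4 / ((w.length : ℝ) + 3) := by
  obtain ⟨hi, hpe, -, -⟩ := (mem_adm hs i e).1 hp
  rw [occ_eq, occ_eq]
  have hlen : (ins w i e).length = w.length + 2 := by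
    unfold ins
    simp only [List.length_append, List.length_take, List.length_cons, List.length_drop]
    omega
  set H : ℤ × ℤ → ℝ := fun p => h (sc b p) with hH
  have hH1 : ∀ p, |H p| ≤ 1 := fun p => hh _
  set d := lt w i with hd
  have hsp := split_at w i hi
  have hins : ins w i e = w.take i ++ (e :: d :: opp e :: w.drop (i + 1)) := rfl
  have hdisp : AREAx.disp (ins w i e) = AREAx.disp w := by
    rw [hins]
    conv_rhs => rw [hsp]
    unfold AREAx.disp
    simp only [wX_append, wY_append, wX_cons, wY_cons, dx_opp, dy_opp, Prod.mk.injEq]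
    constructor <;> ring
  have hP : (0 : ℤ × ℤ) + AREAx.disp (w.take i) = PP w i := by rw [zero_add]; rfl
  have h1 : vw H 0 (ins w i e) = vw H 0 w + (H (PP w i + dv e) + H (PP w i + dv e + dv d)) := by
    have h2 : PP w i + dv e + dv d + dv (opp e) = PP w i + dv d := by
      unfold dv
      rw [dx_opp, dy_opp]
      ext
      · simp only [Prod.fst_add]; ring
      · simp only [Prod.snd_add]; ring
    have e1 : vw H 0 (ins w i e) = vw H 0 (w.take i) + (H (PP w i) + (H (PP w i + dv e) +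
        (H (PP w i + dv e + dv d) + vw H (PP w i + dv d) (w.drop (i + 1))))) := by
      rw [hins, vw_append, hP]
      simp only [vw]
      rw [h2]
    have e2 : vw H 0 w = vw H 0 (w.take i) + (H (PP w i) +
        vw H (PP w i + dv d) (w.drop (i + 1))) := by
      conv_lhs => rw [hsp]
      rw [vw_append, hP]
      simp only [vw]
      rfl
    rw [e1, e2]
    ring
  rw [h1, hdisp, hlen]
  have hS : |vw H 0 w + H (AREAx.disp w)| ≤ w.length + 1 := by
    refine (abs_add_le _ _).trans ?_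
    have := vw_abs hH1 w 0
    have := hH1 (AREAx.disp w)
    linarith
  have hx := hH1 (PP w i + dv e)
  have hy := hH1 (PP w i + dv e + dv d)
  set S := vw H 0 w + H (AREAx.disp w) with hSdef
  set x := H (PP w i + dv e) with hxd
  set y := H (PP w i + dv e + dv d) with hyd
  set n : ℝ := (w.length : ℝ) with hn
  have hn0 : 0 ≤ n := Nat.cast_nonneg _
  have e3 : (vw H 0 w + (x + y) + H (AREAx.disp w)) / ((w.length + 2 + 1 : ℕ) : ℝ) -
      S / ((w.length + 1 : ℕ) : ℝ) = ((x + y) - 2 * S / (n + 1)) / (n + 3) := by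
    have h5 : vw H 0 w + (x + y) + H (AREAx.disp w) = S + (x + y) := by rw [hSdef]; ring
    rw [h5]
    push_cast
    rw [← hn]
    field_simp
    ring
  rw [e3, abs_div, abs_of_pos (show (0 : ℝ) < n + 3 by linarith)]
  apply div_le_div_of_nonneg_right _ (by linarith)
  have h6 : |2 * S / (n + 1)| ≤ 2 := by
    rw [abs_div, abs_of_pos (show (0 : ℝ) < n + 1 by linarith), div_le_iff₀ (by linarith),
      abs_mul, abs_of_pos (show (0 : ℝ) < 2 by norm_num)]
    linarith
  have h7 := abs_sub (x + y) (2 * S / (n + 1))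
  have h8 := abs_add_le x y
  linarith

/-! ### Hull -/

/-- the linear functional -/
def li (u : ℝ × ℝ) (p : ℤ × ℤ) : ℝ := (p.1 : ℝ) * u.1 + (p.2 : ℝ) * u.2

/-- the support function of a word -/
def Hs (w : List Dir) (u : ℝ × ℝ) : ℝ := ⨆ k : ZMod (w.length + 1), li u (lp (w.length + 1) w k)

theorem li_le_Hs (w : List Dir) (u : ℝ × ℝ) {p : ℤ × ℤ} (hp : vis w p) : li u p ≤ Hs w u := by
  obtain ⟨k, rfl⟩ := (BOXx.vis_iff_lp w p).1 hp
  exact le_ciSup (f := fun k : ZMod (w.length + 1) => li u (lp (w.length + 1) w k))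
    (Set.finite_range _).bddAbove k

theorem exists_Hs (w : List Dir) (u : ℝ × ℝ) : ∃ p, vis w p ∧ li u p = Hs w u := by
  obtain ⟨k, hk⟩ := exists_eq_ciSup_of_finite
    (f := fun k : ZMod (w.length + 1) => li u (lp (w.length + 1) w k))
  exact ⟨_, (BOXx.vis_iff_lp w _).2 ⟨k, rfl⟩, hk⟩

theorem hul_eq (b : ℝ) (w : List Dir) (u : ℝ × ℝ) :
    hul b (w.length + 1) (lp (w.length + 1) w) u = Hs w u / b := rfl

/-- there is a vertex further in the direction `e` -/
def Cov (w : List Dir) (p : ℤ × ℤ) (e : Dir) : Prop :=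
  ∃ t : ℤ, 1 ≤ t ∧ vis w (p.1 + t * dx e, p.2 + t * dy e)

theorem li_cov {w : List Dir} {u : ℝ × ℝ} {p : ℤ × ℤ} {e : Dir} (hp : vis w p)
    (hc : Cov w p e) : li u (p + dv e) ≤ Hs w u := by
  obtain ⟨t, ht, hv⟩ := hc
  have h1 := li_le_Hs w u hp
  have h2 := li_le_Hs w u hv
  have ht' : (1 : ℝ) ≤ t := by exact_mod_cast ht
  have e1 : li u (p.1 + t * dx e, p.2 + t * dy e) = li u p + t * (dx e * u.1 + dy e * u.2) := by
    unfold li
    push_cast
    ring
  have e2 : li u (p + dv e) = li u p + (dx e * u.1 + dy e * u.2) := by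
    unfold li dv
    simp only [Prod.fst_add, Prod.snd_add]
    push_cast
    ring
  rw [e1] at h2
  rw [e2]
  set x : ℝ := dx e * u.1 + dy e * u.2
  by_cases hx : 0 ≤ x
  · nlinarith
  · push Not at hx
    linarith

theorem li_step {u : ℝ × ℝ} (hu : |u.1| ≤ 1 ∧ |u.2| ≤ 1) (p : ℤ × ℤ) (e : Dir) :
    li u (p + dv e) ≤ li u p + 1 := by
  have e2 : li u (p + dv e) = li u p + (dx e * u.1 + dy e * u.2) := by
    unfold li dv
    simp only [Prod.fst_add, Prod.snd_add]
    push_cast
    ring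
  rw [e2]
  have h1 := abs_le.1 hu.1
  have h2 := abs_le.1 hu.2
  have : (dx e : ℝ) * u.1 + dy e * u.2 ≤ 1 := by
    cases e <;> simp [dx, dy] <;> linarith
  linarith

open Classical in
/-- the effect of an insertion on the support function -/
theorem Hs_ins {w : List Dir} (hs : Saw w) {i : ℕ} {e : Dir}
    (hp : (i, e) ∈ adm w) {u : ℝ × ℝ} (hu : |u.1| ≤ 1 ∧ |u.2| ≤ 1) :
    |Hs (ins w i e) u - Hs w u| ≤
      if Cov w (PP w i) e ∧ Cov w (PP w (i + 1)) e then 0 else 1 := by
  obtain ⟨hi, hpe, -, -⟩ := (mem_adm hs i e).1 hp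
  have hv := vis_ins w i e hi
  have hP1 : PP w i + dv e + dv (lt w i) = PP w (i + 1) + dv e := by
    rw [PP_succ w i hi, add_right_comm]
  rw [hP1] at hv
  have hlow : Hs w u ≤ Hs (ins w i e) u := by
    obtain ⟨p, hp1, hp2⟩ := exists_Hs w u
    rw [← hp2]
    exact li_le_Hs _ _ ((hv p).2 (Or.inl hp1))
  have hup : Hs (ins w i e) u ≤ Hs w u +
      if Cov w (PP w i) e ∧ Cov w (PP w (i + 1)) e then 0 else 1 := by
    obtain ⟨p, hp1, hp2⟩ := exists_Hs (ins w i e) u
    rw [← hp2]
    have hnn : (0 : ℝ) ≤ if Cov w (PP w i) e ∧ Cov w (PP w (i + 1)) e then 0 else 1 := by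
      split_ifs <;> norm_num
    rcases (hv p).1 hp1 with h | h | h
    · linarith [li_le_Hs w u h]
    · rw [h]
      split_ifs with hc
      · linarith [li_cov (u := u) (BOXx.vis_PP w i) hc.1]
      · linarith [li_step hu (PP w i) e, li_le_Hs w u (BOXx.vis_PP w i)]
    · rw [h]
      split_ifs with hc
      · linarith [li_cov (u := u) (BOXx.vis_PP w (i + 1)) hc.2]
      · linarith [li_step hu (PP w (i + 1)) e, li_le_Hs w u (BOXx.vis_PP w (i + 1))]
  rw [abs_of_nonneg (by linarith)]
  linarith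

theorem bx_ge (w : List Dir) (hw : 1 ≤ w.length) : 1 ≤ bx w := F3x.bx_pos w hw

open Classical in
/-- few positions are not covered -/
theorem uncov_card {w : List Dir} (hs : Saw w) (e : Dir) :
    ((range (w.length + 1)).filter (fun j => ¬ Cov w (PP w j) e)).card ≤ bx w + 1 := by
  obtain ⟨Mx, mx, My, my, hb, h1, h2, h3, h4⟩ := BOXx.exists_box w
  have hbx := BOXx.bx_of w Mx mx My my hb h1 h2 h3 h4
  have hv0 := hb _ (BOXx.vis_PP w 0)
  have hinj : ∀ (g h : ℤ × ℤ → ℤ) (lo hi : ℤ),
      (∀ p, vis w p → lo ≤ h p ∧ h p ≤ hi) →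
      (∀ p q : ℤ × ℤ, vis w p → vis w q → h p = h q → g p < g q → Cov w p e) →
      (∀ p q : ℤ × ℤ, g p = g q → h p = h q → p = q) →
      ((range (w.length + 1)).filter (fun j => ¬ Cov w (PP w j) e)).card ≤ (hi - lo + 1).toNat := by
    intro g h lo hi k1 k2 k3
    have hcard : (Finset.Icc lo hi).card = (hi - lo + 1).toNat := by
      rw [Int.card_Icc]; congr 1; ring
    rw [← hcard]
    apply Finset.card_le_card_of_injOn (fun i => h (PP w i))
    · intro i _
      rw [Finset.coe_Icc, Set.mem_Icc]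
      exact k1 _ (BOXx.vis_PP w i)
    · intro i hi j hj hij
      rw [Finset.mem_coe, Finset.mem_filter, Finset.mem_range] at hi hj
      have hij' : h (PP w i) = h (PP w j) := hij
      rcases lt_trichotomy (g (PP w i)) (g (PP w j)) with hlt | heq | hgt
      · exact absurd (k2 _ _ (BOXx.vis_PP w i) (BOXx.vis_PP w j) hij' hlt) hi.2
      · exact PP_inj hs (by omega) (by omega) (k3 _ _ heq hij')
      · exact absurd (k2 _ _ (BOXx.vis_PP w j) (BOXx.vis_PP w i) hij'.symm hgt) hj.2
  cases e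
  · refine (hinj (fun p => p.1) (fun p => p.2) my My (fun p hp => (hb p hp).2.2) ?_ ?_).trans ?_
    · rintro ⟨x, y⟩ ⟨x', y'⟩ hp hq h5 h6
      refine ⟨x' - x, by simp only at h6; omega, ?_⟩
      have : ((x, y) : ℤ × ℤ).1 + (x' - x) * dx Dir.E = x' := by simp [dx]
      have h7 : ((x, y) : ℤ × ℤ).2 + (x' - x) * dy Dir.E = y' := by
        simp only at h5
        simp [dy, h5]
      rw [this, h7]
      exact hq
    · intro p q a b; exact Prod.ext a b
    · omega
  · refine (hinj (fun p => -p.1) (fun p => p.2) my My (fun p hp => (hb p hp).2.2) ?_ ?_).trans ?_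
    · rintro ⟨x, y⟩ ⟨x', y'⟩ hp hq h5 h6
      refine ⟨x - x', by simp only at h6; omega, ?_⟩
      have : ((x, y) : ℤ × ℤ).1 + (x - x') * dx Dir.W = x' := by simp [dx]
      have h7 : ((x, y) : ℤ × ℤ).2 + (x - x') * dy Dir.W = y' := by
        simp only at h5
        simp [dy, h5]
      rw [this, h7]
      exact hq
    · intro p q a b; exact Prod.ext (by simpa using a) b
    · omega
  · refine (hinj (fun p => p.2) (fun p => p.1) mx Mx
      (fun p hp => ⟨(hb p hp).1, (hb p hp).2.1⟩) ?_ ?_).trans ?_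
    · rintro ⟨x, y⟩ ⟨x', y'⟩ hp hq h5 h6
      refine ⟨y' - y, by simp only at h6; omega, ?_⟩
      have : ((x, y) : ℤ × ℤ).2 + (y' - y) * dy Dir.N = y' := by simp [dy]
      have h7 : ((x, y) : ℤ × ℤ).1 + (y' - y) * dx Dir.N = x' := by
        simp only at h5
        simp [dx, h5]
      rw [this, h7]
      exact hq
    · intro p q a b; exact Prod.ext b a
    · omega
  · refine (hinj (fun p => -p.2) (fun p => p.1) mx Mx
      (fun p hp => ⟨(hb p hp).1, (hb p hp).2.1⟩) ?_ ?_).trans ?_
    · rintro ⟨x, y⟩ ⟨x', y'⟩ hp hq h5 h6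
      refine ⟨y - y', by simp only at h6; omega, ?_⟩
      have : ((x, y) : ℤ × ℤ).2 + (y - y') * dy Dir.S = y' := by simp [dy]
      have h7 : ((x, y) : ℤ × ℤ).1 + (y - y') * dx Dir.S = x' := by
        simp only at h5
        simp [dx, h5]
      rw [this, h7]
      exact hq
    · intro p q a b; exact Prod.ext b (by simpa using a)
    · omega

end

end Pool.Agent.W2helper77.SH
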